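import Mathlib

/-!
# Moments of a character on a closed subgroup of a compact group

`L` is a compact group with a unitary representation `ρ` whose character `χ` is real and satisfies
`|χ g| < χ 1` for `g ≠ 1`, `K` is a compact group with a continuous homomorphism `j` to `L`. Then
`∫_L χ ^ m / ∫_K χ ^ m` converges to the inverse of the index of the image of `K` (`0` if the index
is infinite).
-/

set_option autoImplicit false

namespace Pool.Agent.K4H1.PL

open MeasureTheory Filter Topology Matrix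
open scoped ComplexConjugate InnerProductSpace Pointwise

section haar

variable {L : Type} [Group L] [TopologicalSpace L] [IsTopologicalGroup L] [CompactSpace L]
  [MeasurableSpace L] [BorelSpace L] (μ : Measure L) [μ.IsHaarMeasure] [IsProbabilityMeasure μ]

theorem right_invariant : μ.IsMulRightInvariant := by
  refine ⟨fun g => ?_⟩
  have : IsProbabilityMeasure (μ.map (· * g)) :=
    Measure.isProbabilityMeasure_map (by fun_prop)
  exact Measure.isHaarMeasure_eq_of_isProbabilityMeasure _ _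

theorem integral_right (f : L → ℝ) (g : L) : ∫ x, f (x * g) ∂μ = ∫ x, f x ∂μ := by
  have := right_invariant μ
  exact integral_mul_right_eq_self f g

theorem integral_left (f : L → ℝ) (g : L) : ∫ x, f (g * x) ∂μ = ∫ x, f x ∂μ :=
  integral_mul_left_eq_self f g

theorem integrable_cont {E : Type} [NormedAddCommGroup E] {f : L → E} (hf : Continuous f) :
    Integrable f μ :=
  hf.integrable_of_hasCompactSupport (HasCompactSupport.of_compactSpace f)

/-- the measure of a closed subgroup is the inverse of its index -/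
theorem measure_subgroup (H : Subgroup L) (hH : IsClosed (H : Set L)) :
    μ.real (H : Set L) = (H.index : ℝ)⁻¹ := by
  have hm : MeasurableSet (H : Set L) := hH.measurableSet
  have hco : ∀ g : L, μ.real (g • (H : Set L)) = μ.real (H : Set L) := by
    intro g
    rw [measureReal_def, measureReal_def, measure_smul]
  have hdisj : Pairwise (Function.onFun Disjoint fun q : L ⧸ H => (q.out : L) • (H : Set L)) := by
    intro q q' hqq'
    rw [Function.onFun, Set.disjoint_left]
    rintro x ⟨h, hh, rfl⟩ ⟨h', hh', hx⟩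
    apply hqq'
    have h1 : ((q.out : L) : L ⧸ H) = ((q'.out : L) : L ⧸ H) := by
      rw [QuotientGroup.eq]
      have h2 : (q.out : L)⁻¹ * q'.out = h * h'⁻¹ := by
        have h3 : (q'.out : L) * h' = q.out * h := hx
        rw [inv_mul_eq_iff_eq_mul, ← mul_assoc, eq_mul_inv_iff_mul_eq]
        exact h3
      rw [h2]
      exact H.mul_mem hh (H.inv_mem hh')
    rwa [QuotientGroup.out_eq', QuotientGroup.out_eq'] at h1
  have hms : ∀ q : L ⧸ H, MeasurableSet ((q.out : L) • (H : Set L)) := fun q =>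
    hm.const_smul _
  by_cases hfin : Finite (L ⧸ H)
  · have := Fintype.ofFinite (L ⧸ H)
    have h1 : (⋃ q : L ⧸ H, (q.out : L) • (H : Set L)) = Set.univ := by
      rw [Set.eq_univ_iff_forall]
      intro x
      refine Set.mem_iUnion.2 ⟨(x : L ⧸ H), ?_⟩
      rw [Set.mem_smul_set_iff_inv_smul_mem, smul_eq_mul]
      have h2 := QuotientGroup.mk_out_eq_mul H x
      obtain ⟨h, hh⟩ := h2
      rw [hh, _root_.mul_inv_rev, mul_assoc, inv_mul_cancel, mul_one]
      exact H.inv_mem h.2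
    have h2 : μ.real (⋃ q : L ⧸ H, (q.out : L) • (H : Set L)) =
        ∑ q : L ⧸ H, μ.real ((q.out : L) • (H : Set L)) :=
      measureReal_iUnion_fintype hdisj hms
    rw [h1, probReal_univ] at h2
    simp only [hco, Finset.sum_const, Finset.card_univ, nsmul_eq_mul] at h2
    rw [Subgroup.index, Nat.card_eq_fintype_card]
    exact eq_inv_of_mul_eq_one_right h2.symm
  · have h0 : H.index = 0 := by
      rw [Subgroup.index, Nat.card_eq_zero]
      exact Or.inr (not_finite_iff_infinite.1 hfin)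
    rw [h0, Nat.cast_zero, _root_.inv_zero]
    by_contra hne
    have hpos : 0 < μ.real (H : Set L) := lt_of_le_of_ne measureReal_nonneg (Ne.symm hne)
    obtain ⟨N, hN⟩ := exists_nat_gt (1 / μ.real (H : Set L))
    have := not_finite_iff_infinite.1 hfin
    obtain ⟨s, hs⟩ := Infinite.exists_subset_card_eq (L ⧸ H) N
    have h2 : μ.real (⋃ q ∈ s, (q.out : L) • (H : Set L)) =
        ∑ q ∈ s, μ.real ((q.out : L) • (H : Set L)) :=
      measureReal_biUnion_finset (fun q _ q' _ h => hdisj h) fun q _ => hms q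
    simp only [hco, Finset.sum_const, nsmul_eq_mul, hs] at h2
    have h3 : μ.real (⋃ q ∈ s, (q.out : L) • (H : Set L)) ≤ 1 := measureReal_le_one
    rw [h2] at h3
    rw [div_lt_iff₀ hpos] at hN
    linarith

end haar

section feature

variable {ι : Type} [Fintype ι] [DecidableEq ι] {L : Type} [Group L]
  (ρ : L →* unitaryGroup ι ℂ)

/-- the character -/
noncomputable def chi (g : L) : ℝ := (trace (ρ g : Matrix ι ι ℂ)).re

/-- the products of `m` entries of `ρ g` -/
noncomputable def feat (m : ℕ) (g : L) : EuclideanSpace ℂ (Fin m → ι × ι) :=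
  WithLp.toLp 2 fun J => ∏ t, (ρ g : Matrix ι ι ℂ) (J t).1 (J t).2

theorem coe_inv (g : L) : ((ρ g⁻¹ : unitaryGroup ι ℂ) : Matrix ι ι ℂ) =
    (ρ g : Matrix ι ι ℂ)ᴴ := by
  rw [map_inv]
  rfl

theorem coe_mul' (g h : L) : ((ρ (g * h) : unitaryGroup ι ℂ) : Matrix ι ι ℂ) =
    (ρ g : Matrix ι ι ℂ) * (ρ h : Matrix ι ι ℂ) := by
  rw [map_mul]
  rfl

variable {ρ}

theorem trace_eq (him : ∀ g, (trace (ρ g : Matrix ι ι ℂ)).im = 0) (g : L) :
    trace (ρ g : Matrix ι ι ℂ) = (chi ρ g : ℂ) :=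
  Complex.ext rfl (him g)

theorem chi_conj (g h : L) : chi ρ (g * h * g⁻¹) = chi ρ h := by
  have h1 : trace (ρ (g * h * g⁻¹) : Matrix ι ι ℂ) = trace (ρ h : Matrix ι ι ℂ) := by
    rw [coe_mul', trace_mul_comm, ← coe_mul', ← mul_assoc, inv_mul_cancel, one_mul]
  unfold chi
  rw [h1]

theorem inner_feat (him : ∀ g, (trace (ρ g : Matrix ι ι ℂ)).im = 0) (m : ℕ) (g h : L) :
    ⟪feat ρ m h, feat ρ m g⟫_ℂ = ((chi ρ (h⁻¹ * g) ^ m : ℝ) : ℂ) := by
  have h1 : (chi ρ (h⁻¹ * g) : ℂ) =
      ∑ p : ι × ι, conj ((ρ h : Matrix ι ι ℂ) p.1 p.2) * (ρ g : Matrix ι ι ℂ) p.1 p.2 := by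
    rw [← trace_eq him, coe_mul', coe_inv, Fintype.sum_prod_type, Finset.sum_comm]
    refine Finset.sum_congr rfl fun i _ => ?_
    rw [diag_apply, Matrix.mul_apply]
    refine Finset.sum_congr rfl fun j _ => ?_
    rw [conjTranspose_apply]
    rfl
  rw [Complex.ofReal_pow, h1, Fintype.sum_pow, PiLp.inner_apply]
  refine Finset.sum_congr rfl fun J _ => ?_
  rw [Finset.prod_mul_distrib, ← map_prod, mul_comm]
  rfl

theorem trace_sq (M : Matrix ι ι ℂ) :
    (trace (Mᴴ * M)).re = ∑ i, ∑ j, Complex.normSq (M j i) := by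
  have h1 : trace (Mᴴ * M) = ∑ i, ∑ j, ((Complex.normSq (M j i) : ℝ) : ℂ) := by
    refine Finset.sum_congr rfl fun i _ => ?_
    rw [diag_apply, Matrix.mul_apply]
    refine Finset.sum_congr rfl fun j _ => ?_
    rw [conjTranspose_apply]
    exact (Complex.normSq_eq_conj_mul_self).symm
  have h2 : ∑ i, ∑ j, ((Complex.normSq (M j i) : ℝ) : ℂ) =
      ((∑ i, ∑ j, Complex.normSq (M j i) : ℝ) : ℂ) := by push_cast; rfl
  rw [h1, h2, Complex.ofReal_re]

theorem trace_sub_smul {u : Matrix ι ι ℂ} (hu : uᴴ * u = 1) {c : ℝ} (hc : c ^ 2 = 1) :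
    ∑ i, ∑ j, Complex.normSq ((u - (c : ℂ) • (1 : Matrix ι ι ℂ)) j i) =
      2 * Fintype.card ι - 2 * c * (trace u).re := by
  have hc' : (c : ℂ) * (c : ℂ) = 1 := by
    rw [← Complex.ofReal_mul, ← sq, hc, Complex.ofReal_one]
  rw [← trace_sq]
  have h1 : (u - (c : ℂ) • (1 : Matrix ι ι ℂ))ᴴ * (u - (c : ℂ) • (1 : Matrix ι ι ℂ)) =
      (2 : ℂ) • (1 : Matrix ι ι ℂ) - (c : ℂ) • u - (c : ℂ) • uᴴ := by
    rw [conjTranspose_sub, conjTranspose_smul, conjTranspose_one, Matrix.sub_mul, Matrix.mul_sub,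
      Matrix.mul_sub, hu, Matrix.smul_mul, Matrix.one_mul, Matrix.mul_smul, Matrix.mul_one,
      Matrix.smul_mul, Matrix.one_mul, smul_smul]
    have h2 : star (c : ℂ) = c := Complex.conj_ofReal c
    rw [h2, hc', two_smul, one_smul]
    abel
  have h3 : (trace uᴴ).re = (trace u).re := by
    rw [trace_conjTranspose]
    exact Complex.conj_re _
  rw [h1, trace_sub, trace_sub, trace_smul, trace_smul, trace_smul, trace_one, Complex.sub_re,
    Complex.sub_re, smul_eq_mul, smul_eq_mul, smul_eq_mul, Complex.re_ofReal_mul,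
    Complex.re_ofReal_mul, h3]
  simp
  ring

theorem conj_mul_self' (g : L) : (ρ g : Matrix ι ι ℂ)ᴴ * (ρ g : Matrix ι ι ℂ) = 1 :=
  mem_unitaryGroup_iff'.1 (ρ g).2

theorem chi_lt (hinj : Function.Injective ρ) {v₀ : ι → ℂ} (hv₀ : v₀ ≠ 0)
    (hfix : ∀ g, (ρ g : Matrix ι ι ℂ).mulVec v₀ = v₀) {g : L} (hg : g ≠ 1) :
    |chi ρ g| < Fintype.card ι := by
  have key : ∀ c : ℝ, c ^ 2 = 1 → c * chi ρ g < Fintype.card ι := by
    intro c hc
    have h1 := trace_sub_smul (conj_mul_self' (ρ := ρ) g) hc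
    have h2 : (0 : ℝ) ≤ ∑ i, ∑ j, Complex.normSq
        (((ρ g : Matrix ι ι ℂ) - (c : ℂ) • (1 : Matrix ι ι ℂ)) j i) :=
      Finset.sum_nonneg fun i _ => Finset.sum_nonneg fun j _ => Complex.normSq_nonneg _
    by_contra hlt
    push Not at hlt
    have h3 : ∑ i, ∑ j, Complex.normSq
        (((ρ g : Matrix ι ι ℂ) - (c : ℂ) • (1 : Matrix ι ι ℂ)) j i) = 0 := by
      refine le_antisymm ?_ h2
      rw [h1]
      unfold chi at hlt
      linarith
    have h4 : (ρ g : Matrix ι ι ℂ) = (c : ℂ) • (1 : Matrix ι ι ℂ) := by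
      rw [← sub_eq_zero]
      ext j i
      have h5 := (Finset.sum_eq_zero_iff_of_nonneg fun i _ =>
        Finset.sum_nonneg fun j _ => Complex.normSq_nonneg _).1 h3 i (Finset.mem_univ i)
      have h6 := (Finset.sum_eq_zero_iff_of_nonneg fun j _ =>
        Complex.normSq_nonneg _).1 h5 j (Finset.mem_univ j)
      exact Complex.normSq_eq_zero.1 h6
    have h5 := hfix g
    rw [h4, smul_mulVec, one_mulVec] at h5
    have h6 : c = 1 := by
      obtain ⟨i, hi⟩ := Function.ne_iff.1 hv₀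
      have h7 := congrFun h5 i
      rw [Pi.smul_apply, smul_eq_mul] at h7
      have h8 : (c : ℂ) = 1 := mul_right_cancel₀ hi (by rw [h7, one_mul])
      exact_mod_cast h8
    apply hg
    apply hinj
    rw [map_one]
    apply Subtype.ext
    rw [h4, h6, Complex.ofReal_one, one_smul]
    rfl
  rw [abs_lt]
  have h1 := key 1 (by norm_num)
  have h2 := key (-1) (by norm_num)
  constructor <;> linarith

theorem chi_one : chi ρ 1 = Fintype.card ι := by
  unfold chi
  rw [map_one]
  show (trace (1 : Matrix ι ι ℂ)).re = _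
  rw [trace_one, Complex.natCast_re]

end feature

section main

variable {ι : Type} [Fintype ι] [DecidableEq ι] {L : Type} [Group L] [TopologicalSpace L]
  [IsTopologicalGroup L] [CompactSpace L] [MeasurableSpace L] [BorelSpace L]
  {K : Type} [Group K] [TopologicalSpace K] [IsTopologicalGroup K] [CompactSpace K]
  [MeasurableSpace K] [BorelSpace K]
  {μ : Measure L} [μ.IsHaarMeasure] [IsProbabilityMeasure μ]
  {ν : Measure K} [ν.IsHaarMeasure] [IsProbabilityMeasure ν]
  {ρ : L →* unitaryGroup ι ℂ} {j : K →* L}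

theorem continuous_chi (hρ : Continuous ρ) : Continuous (chi ρ) :=
  Complex.continuous_re.comp (Continuous.matrix_trace (continuous_subtype_val.comp hρ))

theorem continuous_feat (hρ : Continuous ρ) (m : ℕ) : Continuous (feat ρ m) := by
  refine (PiLp.continuous_toLp 2 _).comp ?_
  refine continuous_pi fun J => continuous_finsetProd _ fun t _ => ?_
  exact (continuous_subtype_val.comp hρ).matrix_elem _ _

/-- the integral of `χ ^ m` over the coset `x K` -/
noncomputable def co (ν : Measure K) (ρ : L →* unitaryGroup ι ℂ) (j : K →* L) (m : ℕ) (x : L) : ℝ :=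
  ∫ k, chi ρ (x * j k) ^ m ∂ν

/-- the integral of the features over the coset `x K` -/
noncomputable def vec (ν : Measure K) (ρ : L →* unitaryGroup ι ℂ) (j : K →* L) (m : ℕ) (x : L) :
    EuclideanSpace ℂ (Fin m → ι × ι) :=
  ∫ k, feat ρ m (x * j k) ∂ν

theorem inner_vec (hρ : Continuous ρ) (hj : Continuous j)
    (him : ∀ g, (trace (ρ g : Matrix ι ι ℂ)).im = 0) (m : ℕ) (y x : L) :
    ⟪vec ν ρ j m y, vec ν ρ j m x⟫_ℂ = ((co ν ρ j m (y⁻¹ * x) : ℝ) : ℂ) := by
  have hint : ∀ z : L, Integrable (fun k => feat ρ m (z * j k)) ν := fun z =>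
    integrable_cont ν ((continuous_feat hρ m).comp (continuous_const.mul hj))
  have h1 : ∀ c : EuclideanSpace ℂ (Fin m → ι × ι),
      ⟪c, vec ν ρ j m x⟫_ℂ = ∫ k, ⟪c, feat ρ m (x * j k)⟫_ℂ ∂ν := fun c =>
    (integral_inner (hint x) c).symm
  have h2 : ∀ l : K, ⟪feat ρ m (y * j l), vec ν ρ j m x⟫_ℂ = ((co ν ρ j m (y⁻¹ * x) : ℝ) : ℂ) := by
    intro l
    rw [h1]
    simp only [inner_feat him]
    refine (integral_ofReal (𝕜 := ℂ) (μ := ν)
      (f := fun k => chi ρ ((y * j l)⁻¹ * (x * j k)) ^ m)).trans ?_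
    refine congrArg Complex.ofReal ?_
    unfold co
    rw [← integral_right ν (fun k => chi ρ (y⁻¹ * x * j k) ^ m) l⁻¹]
    refine integral_congr_ae (Filter.Eventually.of_forall fun k => ?_)
    show chi ρ ((y * j l)⁻¹ * (x * j k)) ^ m = chi ρ (y⁻¹ * x * j (k * l⁻¹)) ^ m
    congr 1
    rw [← chi_conj (j l)⁻¹ (y⁻¹ * x * j (k * l⁻¹))]
    congr 1
    rw [map_mul, map_inv]
    group
  have h3 : ⟪vec ν ρ j m y, vec ν ρ j m x⟫_ℂ = conj ⟪vec ν ρ j m x, vec ν ρ j m y⟫_ℂ :=
    (inner_conj_symm _ _).symm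
  have h4 : ⟪vec ν ρ j m x, vec ν ρ j m y⟫_ℂ =
      ∫ l, ⟪vec ν ρ j m x, feat ρ m (y * j l)⟫_ℂ ∂ν :=
    (integral_inner (hint y) _).symm
  have h5 : ∀ l : K, ⟪vec ν ρ j m x, feat ρ m (y * j l)⟫_ℂ =
      ((co ν ρ j m (y⁻¹ * x) : ℝ) : ℂ) := by
    intro l
    rw [← inner_conj_symm, h2, Complex.conj_ofReal]
  rw [h3, h4]
  simp only [h5]
  rw [integral_const, probReal_univ, one_smul, Complex.conj_ofReal]

theorem co_nonneg (hρ : Continuous ρ) (hj : Continuous j)
    (him : ∀ g, (trace (ρ g : Matrix ι ι ℂ)).im = 0) (m : ℕ) : 0 ≤ co ν ρ j m 1 := by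
  have h1 := inner_vec (ν := ν) hρ hj him m 1 1
  rw [inner_self_eq_norm_sq_to_K, inv_one, one_mul] at h1
  have h2 : ‖vec ν ρ j m 1‖ ^ 2 = co ν ρ j m 1 := by
    refine Complex.ofReal_injective ?_
    rw [Complex.ofReal_pow]
    exact h1
  rw [← h2]
  positivity

/-- **The integral over a coset is at most the integral over the subgroup.** -/
theorem abs_co_le (hρ : Continuous ρ) (hj : Continuous j)
    (him : ∀ g, (trace (ρ g : Matrix ι ι ℂ)).im = 0) (m : ℕ) (x : L) :
    |co ν ρ j m x| ≤ co ν ρ j m 1 := by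
  have hn : ∀ z : L, ‖vec ν ρ j m z‖ ^ 2 = co ν ρ j m 1 := by
    intro z
    have h1 := inner_vec (ν := ν) hρ hj him m z z
    rw [inner_self_eq_norm_sq_to_K, inv_mul_cancel] at h1
    refine Complex.ofReal_injective ?_
    rw [Complex.ofReal_pow]
    exact h1
  have h2 := inner_vec (ν := ν) hρ hj him m 1 x
  rw [inv_one, one_mul] at h2
  have h3 := norm_inner_le_norm (𝕜 := ℂ) (vec ν ρ j m 1) (vec ν ρ j m x)
  rw [h2, Complex.norm_real, Real.norm_eq_abs] at h3
  have h4 : ‖vec ν ρ j m x‖ = ‖vec ν ρ j m 1‖ := by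
    rw [← Real.sqrt_sq (norm_nonneg (vec ν ρ j m x)), hn,
      ← Real.sqrt_sq (norm_nonneg (vec ν ρ j m 1)), hn]
  rw [h4, ← sq, hn] at h3
  exact h3

/-- lower bound for the integral over the subgroup -/
theorem exists_lower [Nonempty ι] (hρ : Continuous ρ) (hj : Continuous j)
    (hlt : ∀ g, g ≠ 1 → |chi ρ g| < Fintype.card ι) {r : ℝ} (hr : r < Fintype.card ι) :
    ∃ s : ℝ, ∃ c : ℝ, r < s ∧ 0 < s ∧ 0 < c ∧ ∀ᶠ m in atTop, c * s ^ m ≤ co ν ρ j m 1 := by
  have hcont : Continuous fun k : K => chi ρ (j k) := (continuous_chi hρ).comp hj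
  have hpos : (0 : ℝ) < Fintype.card ι := Nat.cast_pos.2 Fintype.card_pos
  -- the maximum of `|χ|` on the closed set where `χ ≤ 0`
  obtain ⟨s₀, hs₀, hs₀n, hs₀'⟩ : ∃ s₀ : ℝ, 0 ≤ s₀ ∧ s₀ < Fintype.card ι ∧
      ∀ k : K, chi ρ (j k) ≤ 0 → |chi ρ (j k)| ≤ s₀ := by
    have hC : IsCompact {k : K | chi ρ (j k) ≤ 0} :=
      (isClosed_le hcont continuous_const).isCompact
    by_cases hne : {k : K | chi ρ (j k) ≤ 0}.Nonempty
    · obtain ⟨k₀, hk₀, hmax⟩ := hC.exists_isMaxOn hne hcont.abs.continuousOn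
      refine ⟨|chi ρ (j k₀)|, abs_nonneg _, hlt _ ?_, fun k hk => hmax hk⟩
      intro h1
      have h2 : chi ρ (j k₀) ≤ 0 := hk₀
      rw [h1, chi_one] at h2
      linarith
    · refine ⟨0, le_rfl, hpos, fun k hk => absurd ⟨k, hk⟩ hne⟩
  obtain ⟨s, hs1, hs2⟩ := exists_between (max_lt hr hs₀n)
  have hrs : r < s := lt_of_le_of_lt (le_max_left _ _) hs1
  have hs0s : s₀ < s := lt_of_le_of_lt (le_max_right _ _) hs1
  have hs : 0 < s := lt_of_le_of_lt hs₀ hs0s
  have hopen : IsOpen {k : K | s < chi ρ (j k)} := isOpen_lt continuous_const hcont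
  have hne : {k : K | s < chi ρ (j k)}.Nonempty := ⟨1, by
    show s < chi ρ (j 1)
    rw [map_one, chi_one]
    exact hs2⟩
  have hc : 0 < ν.real {k : K | s < chi ρ (j k)} :=
    ENNReal.toReal_pos (hopen.measure_pos ν hne).ne' (measure_ne_top _ _)
  set c := ν.real {k : K | s < chi ρ (j k)} with hcdef
  have h1 : ∀ m : ℕ, c * s ^ m - s₀ ^ m ≤ co ν ρ j m 1 := by
    intro m
    have h2 : ∫ k, (Set.indicator {k : K | s < chi ρ (j k)} (fun _ => s ^ m) k - s₀ ^ m) ∂ν ≤
        co ν ρ j m 1 := by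
      refine integral_mono ?_ (integrable_cont ν ?_) fun k => ?_
      · exact ((integrable_const _).indicator hopen.measurableSet).sub (integrable_const _)
      · simp only [one_mul]
        exact hcont.pow m
      · show Set.indicator {k : K | s < chi ρ (j k)} (fun _ => s ^ m) k - s₀ ^ m ≤
          chi ρ (1 * j k) ^ m
        rw [one_mul]
        by_cases hk : s < chi ρ (j k)
        · rw [Set.indicator_of_mem (by exact hk)]
          have h3 : s ^ m ≤ chi ρ (j k) ^ m := pow_le_pow_left₀ hs.le hk.le m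
          have h4 : 0 ≤ s₀ ^ m := pow_nonneg hs₀ m
          linarith
        · rw [Set.indicator_of_notMem (by exact hk), zero_sub]
          rcases le_or_gt (chi ρ (j k)) 0 with h3 | h3
          · have h4 : |chi ρ (j k) ^ m| ≤ s₀ ^ m := by
              rw [abs_pow]
              exact pow_le_pow_left₀ (abs_nonneg _) (hs₀' k h3) m
            exact (abs_le.1 h4).1
          · have h4 : 0 ≤ s₀ ^ m := pow_nonneg hs₀ m
            have h5 : 0 ≤ chi ρ (j k) ^ m := pow_nonneg h3.le m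
            linarith
    refine le_trans (le_of_eq ?_) h2
    rw [integral_sub ((integrable_const _).indicator hopen.measurableSet) (integrable_const _),
      integral_indicator hopen.measurableSet, setIntegral_const, integral_const, probReal_univ,
      one_smul, smul_eq_mul]
  refine ⟨s, c / 2, hrs, hs, by positivity, ?_⟩
  have h2 : Tendsto (fun m : ℕ => (s₀ / s) ^ m) atTop (𝓝 0) :=
    tendsto_pow_atTop_nhds_zero_of_lt_one (by positivity) ((div_lt_one hs).2 hs0s)
  filter_upwards [h2.eventually_le_const (show (0 : ℝ) < c / 2 by positivity)] with m hm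
  have h3 : s₀ ^ m ≤ c / 2 * s ^ m := by
    rw [div_pow, div_le_iff₀ (pow_pos hs m)] at hm
    exact hm
  have h4 := h1 m
  linarith

theorem co_eq_inner (hρ : Continuous ρ) (hj : Continuous j)
    (him : ∀ g, (trace (ρ g : Matrix ι ι ℂ)).im = 0) (m : ℕ) (x : L) :
    ((co ν ρ j m x : ℝ) : ℂ) = ⟪feat ρ m x⁻¹, vec ν ρ j m 1⟫_ℂ := by
  have hint : Integrable (fun k => feat ρ m (1 * j k)) ν :=
    integrable_cont ν ((continuous_feat hρ m).comp (continuous_const.mul hj))
  have h1 : ⟪feat ρ m x⁻¹, vec ν ρ j m 1⟫_ℂ = ∫ k, ⟪feat ρ m x⁻¹, feat ρ m (1 * j k)⟫_ℂ ∂ν :=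
    (integral_inner hint _).symm
  rw [h1]
  simp only [inner_feat him]
  refine Eq.trans ?_ (integral_ofReal (𝕜 := ℂ) (μ := ν)
      (f := fun k => chi ρ ((x⁻¹)⁻¹ * (1 * j k)) ^ m)).symm
  refine congrArg Complex.ofReal ?_
  unfold co
  simp only [inv_inv, one_mul]
  rfl

theorem continuous_co (hρ : Continuous ρ) (hj : Continuous j)
    (him : ∀ g, (trace (ρ g : Matrix ι ι ℂ)).im = 0) (m : ℕ) : Continuous (co ν ρ j m) := by
  have h1 : co ν ρ j m = fun x => (⟪feat ρ m x⁻¹, vec ν ρ j m 1⟫_ℂ).re := by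
    funext x
    rw [← co_eq_inner hρ hj him, Complex.ofReal_re]
  rw [h1]
  exact Complex.continuous_re.comp
    (((continuous_feat hρ m).comp continuous_inv).inner continuous_const)

theorem integral_co (hρ : Continuous ρ) (hj : Continuous j) (m : ℕ) :
    ∫ x, co ν ρ j m x ∂μ = ∫ x, chi ρ x ^ m ∂μ := by
  unfold co
  rw [integral_integral_swap_of_hasCompactSupport]
  · simp only [integral_right μ (fun x => chi ρ x ^ m)]
    rw [integral_const, probReal_univ, one_smul]
  · exact ((continuous_chi hρ).comp (continuous_fst.mul (hj.comp continuous_snd))).pow m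
  · exact HasCompactSupport.of_compactSpace _

theorem co_of_mem (m : ℕ) {x : L} (hx : x ∈ j.range) : co ν ρ j m x = co ν ρ j m 1 := by
  obtain ⟨l, rfl⟩ := hx
  unfold co
  have h1 := integral_left ν (fun k => chi ρ (1 * j k) ^ m) l
  rw [← h1]
  simp only [one_mul, map_mul]

theorem co_of_not_mem [Nonempty ι] (hρ : Continuous ρ) (hj : Continuous j)
    (hlt : ∀ g, g ≠ 1 → |chi ρ g| < Fintype.card ι) {x : L} (hx : x ∉ j.range) :
    Tendsto (fun m => co ν ρ j m x / co ν ρ j m 1) atTop (𝓝 0) := by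
  have hcont : Continuous fun k : K => |chi ρ (x * j k)| :=
    ((continuous_chi hρ).comp (continuous_const.mul hj)).abs
  obtain ⟨k₀, -, hk₀⟩ := isCompact_univ.exists_isMaxOn (Set.univ_nonempty (α := K))
    hcont.continuousOn
  set r := |chi ρ (x * j k₀)| with hr
  have hr0 : 0 ≤ r := abs_nonneg _
  have hrn : r < Fintype.card ι := by
    refine hlt _ fun h1 => hx ⟨k₀⁻¹, ?_⟩
    rw [map_inv]
    exact (eq_inv_of_mul_eq_one_left h1).symm
  obtain ⟨s, c, hrs, hs, hc, hlow⟩ := exists_lower (ν := ν) hρ hj hlt hrn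
  have h2 : Tendsto (fun m : ℕ => (1 / c) * (r / s) ^ m) atTop (𝓝 0) := by
    have h3 := (tendsto_pow_atTop_nhds_zero_of_lt_one (show 0 ≤ r / s by positivity)
      ((div_lt_one hs).2 hrs)).const_mul (1 / c)
    rwa [mul_zero] at h3
  refine squeeze_zero_norm' ?_ h2
  filter_upwards [hlow] with m hm
  have h3 : |co ν ρ j m x| ≤ r ^ m := by
    unfold co
    have h4 := norm_integral_le_of_norm_le_const (μ := ν) (C := r ^ m)
      (f := fun k => chi ρ (x * j k) ^ m) (Filter.Eventually.of_forall fun k => by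
        rw [norm_pow, Real.norm_eq_abs]
        exact pow_le_pow_left₀ (abs_nonneg _) (hk₀ (Set.mem_univ k)) m)
    rwa [probReal_univ, mul_one, Real.norm_eq_abs] at h4
  have h5 : 0 < c * s ^ m := by positivity
  rw [Real.norm_eq_abs, abs_div, abs_of_pos (lt_of_lt_of_le h5 hm)]
  calc |co ν ρ j m x| / co ν ρ j m 1 ≤ r ^ m / (c * s ^ m) := by gcongr
    _ = 1 / c * (r / s) ^ m := by
      rw [div_pow]
      field_simp

/-- The ratio of the moments of a real character on a compact group and on a subgroup. -/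
theorem ratio_tendsto_of_lt [Nonempty ι] [T2Space L] (hρ : Continuous ρ) (hj : Continuous j)
    (him : ∀ g, (trace (ρ g : Matrix ι ι ℂ)).im = 0)
    (hlt : ∀ g, g ≠ 1 → |chi ρ g| < Fintype.card ι) :
    (∀ᶠ m in atTop, 0 < ∫ k, chi ρ (j k) ^ m ∂ν) ∧
    (∀ m, |∫ x, chi ρ x ^ m ∂μ| ≤ ∫ k, chi ρ (j k) ^ m ∂ν) ∧
    Tendsto (fun m : ℕ => (∫ x, chi ρ x ^ m ∂μ) / ∫ k, chi ρ (j k) ^ m ∂ν) atTop
      (𝓝 (j.range.index : ℝ)⁻¹) := by
  have hco1 : ∀ m, co ν ρ j m 1 = ∫ k, chi ρ (j k) ^ m ∂ν := fun m => by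
    unfold co
    simp only [one_mul]
  have hpos : ∀ᶠ m in atTop, 0 < co ν ρ j m 1 := by
    obtain ⟨s, c, hrs, hs, hc, hlow⟩ := exists_lower (ν := ν) hρ hj hlt
      (show (0 : ℝ) < Fintype.card ι from Nat.cast_pos.2 Fintype.card_pos)
    filter_upwards [hlow] with m hm
    exact lt_of_lt_of_le (by positivity) hm
  refine ⟨?_, ?_, ?_⟩
  · simpa only [hco1] using hpos
  · intro m
    rw [← hco1, ← integral_co (μ := μ) (ν := ν) hρ hj m]
    have h1 := norm_integral_le_of_norm_le_const (μ := μ) (C := co ν ρ j m 1)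
      (f := co ν ρ j m) (Filter.Eventually.of_forall fun x => abs_co_le hρ hj him m x)
    rwa [probReal_univ, mul_one, Real.norm_eq_abs] at h1
  · have hcl : IsClosed ((j.range : Subgroup L) : Set L) := by
      rw [MonoidHom.coe_range]
      exact (isCompact_range hj).isClosed
    rw [← measure_subgroup μ j.range hcl, ← integral_indicator_one hcl.measurableSet]
    have h1 : (fun m : ℕ => (∫ x, chi ρ x ^ m ∂μ) / ∫ k, chi ρ (j k) ^ m ∂ν) =
        fun m => ∫ x, co ν ρ j m x / co ν ρ j m 1 ∂μ := by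
      funext m
      rw [integral_div, integral_co hρ hj, hco1]
    rw [h1]
    refine tendsto_integral_of_dominated_convergence (fun _ => (1 : ℝ)) (fun m => ?_)
      (integrable_const _) (fun m => ?_) ?_
    · exact ((continuous_co hρ hj him m).div_const _).aestronglyMeasurable
    · refine Filter.Eventually.of_forall fun x => ?_
      rw [Real.norm_eq_abs, abs_div, abs_of_nonneg (co_nonneg hρ hj him m)]
      exact div_le_one_of_le₀ (abs_co_le hρ hj him m x) (co_nonneg hρ hj him m)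
    · refine Filter.Eventually.of_forall fun x => ?_
      by_cases hx : x ∈ j.range
      · rw [Set.indicator_of_mem (by exact hx), Pi.one_apply]
        refine tendsto_const_nhds.congr' ?_
        filter_upwards [hpos] with m hm
        rw [co_of_mem m hx, div_self hm.ne']
      · rw [Set.indicator_of_notMem (by exact hx)]
        exact co_of_not_mem hρ hj hlt hx

/-- **The ratio of the moments of a real character on a compact group and on a subgroup.** -/
theorem ratio_tendsto (hρ : Continuous ρ) (hj : Continuous j)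
    (him : ∀ g, (trace (ρ g : Matrix ι ι ℂ)).im = 0) (hinj : Function.Injective ρ)
    {v₀ : ι → ℂ} (hv₀ : v₀ ≠ 0) (hfix : ∀ g, (ρ g : Matrix ι ι ℂ).mulVec v₀ = v₀) :
    (∀ᶠ m in atTop, 0 < ∫ k, chi ρ (j k) ^ m ∂ν) ∧
    (∀ m, |∫ x, chi ρ x ^ m ∂μ| ≤ ∫ k, chi ρ (j k) ^ m ∂ν) ∧
    Tendsto (fun m : ℕ => (∫ x, chi ρ x ^ m ∂μ) / ∫ k, chi ρ (j k) ^ m ∂ν) atTop
      (𝓝 (j.range.index : ℝ)⁻¹) := by
  have : Nonempty ι := by
    obtain ⟨i, -⟩ := Function.ne_iff.1 hv₀
    exact ⟨i⟩
  have : T2Space L := T2Space.of_injective_continuous hinj hρ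
  exact ratio_tendsto_of_lt hρ hj him fun g hg => chi_lt hinj hv₀ hfix hg

end main

end Pool.Agent.K4H1.PL
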