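import Pool.Agent.K4H35.UK.Mean
import Pool.Agent.K4H1.PL.Ratio

/-!
# The ratio of the moments for closed subgroups of the unitary group
-/

set_option autoImplicit false

namespace Pool.Agent.K4H1.PL

open MeasureTheory Filter Topology Matrix
open Pool.Agent.K4H35.UK (IsMean)

section mean

variable {Γ : Type} [Group Γ] [TopologicalSpace Γ] [IsTopologicalGroup Γ] [CompactSpace Γ]
  [MeasurableSpace Γ] [BorelSpace Γ] (μ : Measure Γ) [μ.IsHaarMeasure] [IsProbabilityMeasure μ]

/-- the mean given by the Haar measure -/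
noncomputable def haarMean : C(Γ, ℂ) →ₗ[ℂ] ℂ where
  toFun f := ∫ x, f x ∂μ
  map_add' f g := integral_add (integrable_cont μ (map_continuous f))
    (integrable_cont μ (map_continuous g))
  map_smul' r f := integral_const_mul r _

theorem isMean_haarMean : IsMean (haarMean μ) := by
  have hint : ∀ f : C(Γ, ℂ), Integrable f μ := fun f => integrable_cont μ (map_continuous f)
  refine ⟨?_, ?_, ?_, ?_, ?_⟩
  · change ∫ x, (1 : C(Γ, ℂ)) x ∂μ = 1
    simp
  · intro g f f' h
    change ∫ x, f' x ∂μ = ∫ x, f x ∂μ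
    rw [← integral_mul_left_eq_self (fun x => f x) g]
    exact integral_congr_ae (Filter.Eventually.of_forall fun x => h x)
  · intro f
    change ‖∫ x, f x ∂μ‖ ≤ ‖f‖
    refine (norm_integral_le_of_norm_le_const (C := ‖f‖)
      (Filter.Eventually.of_forall fun x => f.norm_coe_le_norm x)).trans ?_
    rw [probReal_univ, mul_one]
  · intro f M h
    have h1 : (∫ x, f x ∂μ).re = ∫ x, (f x).re ∂μ := (integral_re (hint f)).symm
    change (∫ x, f x ∂μ).re ≤ M
    rw [h1]
    have h2 : ∫ x, (f x).re ∂μ ≤ ∫ _, M ∂μ :=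
      integral_mono (hint f).re (integrable_const M) h
    simpa using h2
  · intro f h
    have h1 : ∫ x, ‖f x‖ ^ 2 ∂μ = 0 := by
      have h2 : (∫ x, (f * star f) x ∂μ) = ((∫ x, ‖f x‖ ^ 2 ∂μ : ℝ) : ℂ) := by
        refine Eq.trans ?_ (integral_ofReal (𝕜 := ℂ) (μ := μ) (f := fun x => ‖f x‖ ^ 2))
        refine integral_congr_ae (Filter.Eventually.of_forall fun x => ?_)
        change f x * starRingEnd ℂ (f x) = _
        rw [Complex.mul_conj, Complex.normSq_eq_norm_sq]
        rfl
      have h3 : (∫ x, (f * star f) x ∂μ) = 0 := h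
      rw [h2] at h3
      exact_mod_cast h3
    have hc : Continuous fun x => ‖f x‖ ^ 2 := (map_continuous f).norm.pow 2
    ext x
    by_contra hx
    have h5 := Continuous.integral_pos_of_hasCompactSupport_nonneg_nonzero (μ := μ) hc
      (HasCompactSupport.of_compactSpace _) (fun x => sq_nonneg _) (x := x) (by
      intro h6
      exact hx (norm_eq_zero.1 (pow_eq_zero_iff two_ne_zero |>.1 h6)))
    rw [h1] at h5
    exact lt_irrefl _ h5

end mean

variable {ι : Type} [Fintype ι] [DecidableEq ι]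

/-- the character of a subgroup of the unitary group -/
noncomputable def chiC (L : Subgroup (unitaryGroup ι ℂ)) : C(L, ℂ) where
  toFun g := trace ((g : unitaryGroup ι ℂ) : Matrix ι ι ℂ)
  continuous_toFun := Continuous.matrix_trace (continuous_subtype_val.comp continuous_subtype_val)

theorem ratio [Nonempty ι] (K L : Subgroup (unitaryGroup ι ℂ)) (hKL : K ≤ L)
    (hK : IsClosed (K : Set (unitaryGroup ι ℂ))) (hL : IsClosed (L : Set (unitaryGroup ι ℂ)))
    (hreal : ∀ g ∈ L, (trace (g : Matrix ι ι ℂ)).im = 0)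
    (hone : ∀ g ∈ L, ‖trace (g : Matrix ι ι ℂ)‖ = Fintype.card ι → g = 1) :
    haveI : CompactSpace K := isCompact_iff_compactSpace.1 hK.isCompact
    haveI : CompactSpace L := isCompact_iff_compactSpace.1 hL.isCompact
    ∃ (I : C(K, ℂ) →ₗ[ℂ] ℂ) (J : C(L, ℂ) →ₗ[ℂ] ℂ), IsMean I ∧ IsMean J ∧
      (∀ᶠ m : ℕ in atTop, 0 < (I (chiC K ^ m)).re) ∧
      (∀ m : ℕ, |(J (chiC L ^ m)).re| ≤ (I (chiC K ^ m)).re) ∧
      Tendsto (fun m : ℕ => (J (chiC L ^ m)).re / (I (chiC K ^ m)).re) atTop
        (𝓝 ((K.relIndex L : ℝ)⁻¹)) ∧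
      (Tendsto (fun m : ℕ => (J (chiC L ^ m)).re / (I (chiC K ^ m)).re) atTop (𝓝 0) ∨
        ∃ N : ℕ, 1 ≤ N ∧
          Tendsto (fun m : ℕ => (J (chiC L ^ m)).re / (I (chiC K ^ m)).re) atTop (𝓝 (1 / N)) ∧
          (N = 1 → L ≤ K)) := by
  have : CompactSpace K := isCompact_iff_compactSpace.1 hK.isCompact
  have : CompactSpace L := isCompact_iff_compactSpace.1 hL.isCompact
  let _ : MeasurableSpace K := borel K
  have : BorelSpace K := ⟨rfl⟩
  let _ : MeasurableSpace L := borel L
  have : BorelSpace L := ⟨rfl⟩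
  let ν : Measure K := Measure.haarMeasure ⊤
  let μ : Measure L := Measure.haarMeasure ⊤
  have hν : IsProbabilityMeasure ν := ⟨by
    have h := Measure.haarMeasure_self (K₀ := (⊤ : TopologicalSpace.PositiveCompacts K))
    rwa [TopologicalSpace.PositiveCompacts.coe_top] at h⟩
  have hμ : IsProbabilityMeasure μ := ⟨by
    have h := Measure.haarMeasure_self (K₀ := (⊤ : TopologicalSpace.PositiveCompacts L))
    rwa [TopologicalSpace.PositiveCompacts.coe_top] at h⟩
  have hre : ∀ g : L, trace (L.subtype g : Matrix ι ι ℂ) = (chi L.subtype g : ℂ) :=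
    trace_eq fun g => hreal _ g.2
  have hJ : ∀ m : ℕ, (haarMean μ (chiC L ^ m)).re = ∫ x, chi L.subtype x ^ m ∂μ := by
    intro m
    have h1 : haarMean μ (chiC L ^ m) = ((∫ x, chi L.subtype x ^ m ∂μ : ℝ) : ℂ) := by
      refine Eq.trans ?_ (integral_ofReal (𝕜 := ℂ) (μ := μ) (f := fun x => chi L.subtype x ^ m))
      refine integral_congr_ae (Filter.Eventually.of_forall fun x => ?_)
      show trace (L.subtype x : Matrix ι ι ℂ) ^ m = ((chi L.subtype x ^ m : ℝ) : ℂ)
      rw [hre, Complex.ofReal_pow]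
    rw [h1, Complex.ofReal_re]
  have hI : ∀ m : ℕ, (haarMean ν (chiC K ^ m)).re =
      ∫ x, chi L.subtype (Subgroup.inclusion hKL x) ^ m ∂ν := by
    intro m
    have h1 : haarMean ν (chiC K ^ m) =
        ((∫ x, chi L.subtype (Subgroup.inclusion hKL x) ^ m ∂ν : ℝ) : ℂ) := by
      refine Eq.trans ?_ (integral_ofReal (𝕜 := ℂ) (μ := ν)
        (f := fun x => chi L.subtype (Subgroup.inclusion hKL x) ^ m))
      refine integral_congr_ae (Filter.Eventually.of_forall fun x => ?_)
      show trace (L.subtype (Subgroup.inclusion hKL x) : Matrix ι ι ℂ) ^ m =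
        ((chi L.subtype (Subgroup.inclusion hKL x) ^ m : ℝ) : ℂ)
      rw [hre, Complex.ofReal_pow]
    rw [h1, Complex.ofReal_re]
  have hlt : ∀ g : L, g ≠ 1 → |chi L.subtype g| < Fintype.card ι := by
    intro g hg
    have hle : |chi L.subtype g| ≤ Fintype.card ι := by
      have key : ∀ c : ℝ, c ^ 2 = 1 → c * chi L.subtype g ≤ Fintype.card ι := by
        intro c hc
        have h1 := trace_sub_smul (conj_mul_self' (ρ := L.subtype) g) hc
        have h2 : (0 : ℝ) ≤ ∑ i, ∑ j, Complex.normSq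
            (((L.subtype g : Matrix ι ι ℂ) - (c : ℂ) • (1 : Matrix ι ι ℂ)) j i) :=
          Finset.sum_nonneg fun i _ => Finset.sum_nonneg fun j _ => Complex.normSq_nonneg _
        rw [h1] at h2
        unfold chi
        linarith
      rw [abs_le]
      have h1 := key 1 (by norm_num)
      have h2 := key (-1) (by norm_num)
      constructor <;> linarith
    refine lt_of_le_of_ne hle fun heq => hg ?_
    apply Subtype.ext
    refine hone _ g.2 ?_
    have h3 := hre g
    rw [Subgroup.coe_subtype] at h3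
    rw [h3, Complex.norm_real, Real.norm_eq_abs]
    exact heq
  have hjc : Continuous (Subgroup.inclusion hKL) :=
    Continuous.subtype_mk continuous_subtype_val _
  obtain ⟨h1, h2, h3⟩ := ratio_tendsto_of_lt (μ := μ) (ν := ν) (ρ := L.subtype)
    (j := Subgroup.inclusion hKL) continuous_subtype_val hjc (fun g => hreal _ g.2) hlt
  have hidx : (Subgroup.inclusion hKL).range.index = K.relIndex L := by
    rw [Subgroup.inclusion_range, Subgroup.relIndex]
  rw [hidx] at h3
  refine ⟨haarMean ν, haarMean μ, isMean_haarMean ν, isMean_haarMean μ, ?_, ?_, ?_, ?_⟩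
  · simpa only [hI] using h1
  · intro m
    rw [hI, hJ]
    exact h2 m
  · simpa only [hI, hJ] using h3
  · simp only [hI, hJ]
    rcases Nat.eq_zero_or_pos (K.relIndex L) with h0 | h0
    · left
      rwa [h0, Nat.cast_zero, _root_.inv_zero] at h3
    · right
      refine ⟨K.relIndex L, h0, ?_, fun h4 => Subgroup.relIndex_eq_one.1 h4⟩
      rwa [one_div]

end Pool.Agent.K4H1.PL
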