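import Pool.Agent.K4H35.HL.Glue
import Pool.Agent.K4H1.PL.Mean

/-!
# The proportion of the classes in a closed family among the Hodge classes converges
-/

set_option autoImplicit false
set_option linter.unusedSectionVars false

namespace Pool.Agent.K4H1.PL

open Filter Topology Matrix
open Pool.Agent.K4H35.UK Pool.Agent.K4H35.ST Pool.Agent.K4H35.NT Pool.Agent.K4H35.HL
  Pool.Agent.W437.HP

variable {ι : Type} [Fintype ι] [DecidableEq ι]

theorem stab_le {S T : Sys ι} (h : ∀ a c, T.U a c ≤ S.U a c) : stabG S ≤ stabG T :=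
  fun _ hu a c F hF => hu F (h a c hF)

theorem eq_one_of_dist1 {g : unitaryGroup ι ℂ} (h : dist1 (g : Matrix ι ι ℂ) ≤ 0) : g = 1 := by
  have h1 := trace_sub_smul (mem_unitaryGroup_iff'.1 g.2) (c := 1) (by norm_num)
  have h2 : (0 : ℝ) ≤ ∑ i, ∑ j, Complex.normSq
      (((g : Matrix ι ι ℂ) - ((1 : ℝ) : ℂ) • (1 : Matrix ι ι ℂ)) j i) :=
    Finset.sum_nonneg fun i _ => Finset.sum_nonneg fun j _ => Complex.normSq_nonneg _
  have h3 : ∑ i, ∑ j, Complex.normSq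
      (((g : Matrix ι ι ℂ) - ((1 : ℝ) : ℂ) • (1 : Matrix ι ι ℂ)) j i) = 0 := by
    refine le_antisymm ?_ h2
    rw [h1]
    unfold dist1 at h
    linarith
  apply Subtype.ext
  rw [← sub_eq_zero]
  ext j i
  have h5 := (Finset.sum_eq_zero_iff_of_nonneg fun i _ =>
    Finset.sum_nonneg fun j _ => Complex.normSq_nonneg _).1 h3 i (Finset.mem_univ i)
  have h6 := (Finset.sum_eq_zero_iff_of_nonneg fun j _ =>
    Complex.normSq_nonneg _).1 h5 j (Finset.mem_univ j)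
  have h7 := Complex.normSq_eq_zero.1 h6
  rw [Complex.ofReal_one, one_smul] at h7
  exact h7

theorem chiC_eq (T : Sys ι) : chiC (stabG T) = tf1 T 1 := by
  ext g
  show trace ((g : unitaryGroup ι ℂ) : Matrix ι ι ℂ) =
    trace (((1 : unitaryGroup ι ℂ) : Matrix ι ι ℂ) * ((g : unitaryGroup ι ℂ) : Matrix ι ι ℂ))
  rw [OneMemClass.coe_one, Matrix.one_mul]

theorem mean_chi (T : Sys ι) {I : C(stabG T, ℂ) →ₗ[ℂ] ℂ} (hI : IsMean I) (m : ℕ) :
    (I (chiC (stabG T) ^ m)).re = Module.finrank ℂ (T.U 0 m) := by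
  have h1 := finrank_eq hI 0 m
  rw [pow_zero, mul_one] at h1
  rw [chiC_eq, ← h1, Complex.natCast_re]

/-- **The limit of the proportion, for systems of tensors.** -/
theorem clause2_abs {P : ∀ a c : ℕ, Matrix (Fin c → ι) (Fin a → ι) ℚ → Prop} {D : Matrix ι ι ℂ}
    {Q Qi : Matrix ι ι ℚ} (h : Lef P D Q Qi) (f : Fr D (cK ℂ Q)) (hfc : PH P D 2 0 (fc Q))
    {o : ι → ℚ} (ho : o ≠ 0) (hu : PH P D 0 1 (uc o)) (hz : ∀ a c, P a c 0) :
    ∃ r : ℕ → ℝ, (∀ m, r m = (Module.finrank ℂ ((h.sys f).U 0 m) : ℝ) /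
      Module.finrank ℂ ((hodgeSys f).U 0 m)) ∧
      (Tendsto r atTop (𝓝 0) ∨ ∃ N : ℕ, 1 ≤ N ∧ Tendsto r atTop (𝓝 (1 / N)) ∧
        (N = 1 → ∀ (a c : ℕ) (F : Matrix (Fin c → ι) (Fin a → ι) ℚ), Hd D F → P a c F)) := by
  have hne : Nonempty ι := by
    obtain ⟨i, -⟩ := Function.ne_iff.1 ho
    exact ⟨i⟩
  have hKL : stabG (hodgeSys f) ≤ stabG (h.sys f) := stab_le fun a c => sys_le h f a c
  obtain ⟨e, he, hfix⟩ := fix_vec h f ho hu
  obtain ⟨I, J, hI, hJ, -, -, -, hlim⟩ := ratio (stabG (hodgeSys f)) (stabG (h.sys f)) hKL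
    (isClosed_stabG _) (isClosed_stabG _)
    (fun g hg => trace_real h f hfc g.2 fun F hF => hg F hF)
    (fun g hg htr => by
      apply eq_one_of_dist1
      have h1 := dist1_fixed g.2 he (hfix ⟨g, hg⟩)
      rw [htr, sub_self, mul_zero] at h1
      exact h1)
  refine ⟨_, fun m => rfl, ?_⟩
  have h1 : (fun m : ℕ => (J (chiC (stabG (h.sys f)) ^ m)).re /
      (I (chiC (stabG (hodgeSys f)) ^ m)).re) =
      fun m => (Module.finrank ℂ ((h.sys f).U 0 m) : ℝ) /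
        Module.finrank ℂ ((hodgeSys f).U 0 m) := by
    funext m
    rw [mean_chi (h.sys f) hJ, mean_chi (hodgeSys f) hI]
  rw [h1] at hlim
  rcases hlim with hlim | ⟨N, hN, hlim, hle⟩
  · exact Or.inl hlim
  · refine Or.inr ⟨N, hN, hlim, fun hN1 a c F hF => ?_⟩
    have hLK := hle hN1
    refine of_tw_mem h f hz ?_
    refine tannaka (h.sys f) fun u hu' hs => ?_
    have h2 : (⟨u, hu'⟩ : unitaryGroup ι ℂ) ∈ stabG (hodgeSys f) :=
      hLK fun {a c} F hF => hs F hF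
    refine h2 _ ?_
    rw [hodgeSys_U h.pol f]
    exact Submodule.subset_span ⟨F, hF, rfl⟩

/-- **The limit of the proportion of the classes of a closed family among the Hodge classes.** -/
theorem clause2 {Y : Cohomology} (hY : IsPolarizedHodge Y)
    {P : ∀ a c : ℕ, Matrix (Y.pow c).ι (Y.pow a).ι ℚ → Prop} (hP : IsClosed Y P)
    {Q : Matrix Y.ι Y.ι ℚ} (hQ : IsPolarization Y Q) (hc : ContainsForm Y P Q) :
    Tendsto (fun m => (classDim Y P m : ℝ) / hodgeDim Y m) atTop (𝓝 0) ∨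
      ∃ N : ℕ, 1 ≤ N ∧
        Tendsto (fun m => (classDim Y P m : ℝ) / hodgeDim Y m) atTop (𝓝 (1 / N)) ∧
        (N = 1 → ∀ (a c : ℕ) (F : Matrix (Y.pow c).ι (Y.pow a).ι ℚ),
          IsCorrespondence (Y.pow a) (Y.pow c) F → P a c F) := by
  obtain ⟨R, Ri, hfull⟩ := full_of hY hP hQ hc
  obtain ⟨f⟩ := hfull.fr
  obtain ⟨r, hr, hlim⟩ := clause2_abs hfull.lef f hfull.hfc hY.one_ne hfull.huc hfull.zero
  have h1 : (fun m => (classDim Y P m : ℝ) / hodgeDim Y m) = r := by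
    funext m
    rw [hr, classDim_eq hfull.lef f, hodgeDim_eq hfull.lef.pol f]
  rw [h1]
  rcases hlim with hlim | ⟨N, hN, hlim, hall⟩
  · exact Or.inl hlim
  · exact Or.inr ⟨N, hN, hlim, fun hN1 a c F hF => hall hN1 a c F ((hd_iff Y F).1 hF)⟩

end Pool.Agent.K4H1.PL
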